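import Mathlib
import Pool.Agent.V7H38.FR.KE
import Pool.Agent.V7H38.FR.Tot
import Pool.Agent.N31.FR.Tot

/-!
# Frey's inequality with slope `1 / 2` for all one-parameter families of elliptic curves, over all
# extensions of degree `r` of a number field at once

Let `K` be a number field and `r ≥ 1`. The numbers `x` of degree `r` over `K` are counted by their
minimal polynomials `p`; those of height at most `U` number at least `c exp ((r + 1) U)`. We
construct ONE set `E` of polynomials, with at most `2 exp ((r + 1) U - √U)` members of height at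
most `U`, such that the following holds for every rational function `J = A / B` over `K` all of whose
bad places have degree at most `2 r + 1`, and every `κ > 0`. Here a bad place is an irreducible
polynomial `P` which is a pole of `J`, or a zero of `J` of order not divisible by three, or a zero of
`J - 1728` of odd order.

There is `C` such that for ALL extensions `L / K` of degree `r`, all `x` with `L = K(x)` and minimal
polynomial outside `E`, and all elliptic curves `W` over `L` of invariant `J(x)` (all twists), the
Weil restriction `A = Res_{L/ℚ} W`, of dimension `n = [L : ℚ]`, satisfies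

  `h_F(A) ≤ (1 / 2) log N - (1 - κ) h(x) + C`,

`h_F` the stable Faltings height, `h` the height over `L` (`n` times the absolute height), `N` the
product of the norms of the primes of bad reduction of `W` prime to six, a divisor of `N_A`; and the same
for the unstable height of `W` over `L` (times `n`), with the norm `N_f` of the part of the conductor
of `W` prime to six in place of `N`. This implies Szpiro's inequality
`log |Δ_min| ≤ 6 log N_f - (12 - 12 κ) h(x) + C'` for `W`. Frey's conjecture asks for the slope
`n / 2 + ε` and for the multiple `N_A = N_f |D_L| ^ 2` of `N`.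

Proof. The exceptional set is the one of project DR (start files `Pool.Agent.N753.DR.Stm`), which
was left unfinished: for all `x` outside it and every irreducible `F` of degree at most `2 r + 1`
the truncated counting function of the zeros of `F` is at least `(deg F - κ) h(x) - C`. Its last
part is due to helper60 (`Pool.Agent.V7H60.CV`). So most zeros are simple, the primes at which a bad
place, infinity included, has a simple zero are primes of bad reduction with known order of the
minimal discriminant, and the theorem of Mason and Stothers compares the weights.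
-/

set_option autoImplicit false
set_option linter.unusedSectionVars false

namespace Pool.Agent.Results.MP_c59389_nt.AllExtensionsH38

open NumberField IsDedekindDomain Polynomial

/-- the modular invariant `j(τ) = E₄(τ) ^ 3 / Δ(τ) = 1 / q + 744 + ⋯` -/
noncomputable def jInv (τ : UpperHalfPlane) : ℂ :=
  ModularForm.E₄ τ ^ 3 / ModularForm.discriminant τ

/-- the archimedean term `- log (|Δ(τ)| (Im τ) ^ 6)` of the Faltings height -/
noncomputable def arch (τ : UpperHalfPlane) : ℝ :=
  -Real.log (‖ModularForm.discriminant τ‖ * τ.im ^ 6)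

section

variable {L : Type} [Field L] [NumberField L]

/-- the points `τ w` have modular invariant `j` -/
def IsPeriod (j : L) (τ : InfinitePlace L → UpperHalfPlane) : Prop :=
  ∀ w, jInv (τ w) = w.embedding j

/-- the stable Faltings height of the Weil restriction `A = Res_{L/ℚ} W` of an elliptic curve `W`
over `L` of invariant `j`, where the points `τ w` have invariant `j` (up to an absolute multiple of
`[L : ℚ]` which depends on the normalisation of the metric only): `12 h_F(A)` is the sum of
`log max(|j|_v, 1)` over the finite places `v` of `L`, the stable discriminant of `W`, and of the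
archimedean terms -/
noncomputable def stableHeight (j : L) (τ : InfinitePlace L → UpperHalfPlane) : ℝ :=
  (∑ᶠ v : HeightOneSpectrum (𝓞 L), Real.log (max (FinitePlace.mk v j) 1) +
    ∑ w : InfinitePlace L, (w.mult : ℝ) * arch (τ w)) / 12

/-- good reduction at `v`: some Weierstrass equation over `L` of the curve is integral at `v` and
has a discriminant which is a unit at `v` -/
def GoodAt (v : HeightOneSpectrum (𝓞 L)) (W : WeierstrassCurve L) : Prop :=
  ∃ C : WeierstrassCurve.VariableChange L,
    v.valuation L (C • W).a₁ ≤ 1 ∧ v.valuation L (C • W).a₂ ≤ 1 ∧ v.valuation L (C • W).a₃ ≤ 1 ∧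
    v.valuation L (C • W).a₄ ≤ 1 ∧ v.valuation L (C • W).a₆ ≤ 1 ∧ v.valuation L (C • W).Δ = 1

/-- semistable (good or multiplicative) reduction at `v`: some Weierstrass equation over `L` of the
curve is integral at `v` and its discriminant or its invariant `c₄` is a unit at `v` -/
def SemistableAt (v : HeightOneSpectrum (𝓞 L)) (W : WeierstrassCurve L) : Prop :=
  ∃ C : WeierstrassCurve.VariableChange L,
    v.valuation L (C • W).a₁ ≤ 1 ∧ v.valuation L (C • W).a₂ ≤ 1 ∧ v.valuation L (C • W).a₃ ≤ 1 ∧
    v.valuation L (C • W).a₄ ≤ 1 ∧ v.valuation L (C • W).a₆ ≤ 1 ∧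
    (v.valuation L (C • W).Δ = 1 ∨ v.valuation L (C • W).c₄ = 1)

/-- the equation is integral at `v` -/
def IntegralAt (v : HeightOneSpectrum (𝓞 L)) (W : WeierstrassCurve L) : Prop :=
  v.valuation L W.a₁ ≤ 1 ∧ v.valuation L W.a₂ ≤ 1 ∧ v.valuation L W.a₃ ≤ 1 ∧
    v.valuation L W.a₄ ≤ 1 ∧ v.valuation L W.a₆ ≤ 1

/-- the exponent of `v` in the minimal discriminant of `W`: the least order at `v` of the
discriminant of an equation of `W` which is integral at `v` -/
noncomputable def discExponent (v : HeightOneSpectrum (𝓞 L)) (W : WeierstrassCurve L) : ℕ :=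
  sInf {m : ℕ | ∃ C : WeierstrassCurve.VariableChange L, IntegralAt v (C • W) ∧
    v.valuation L (C • W).Δ = WithZero.exp (-(m : ℤ))}

/-- the logarithm of the norm of the minimal discriminant of `W` -/
noncomputable def logDisc (W : WeierstrassCurve L) : ℝ :=
  ∑ᶠ v : HeightOneSpectrum (𝓞 L),
    (discExponent v W : ℝ) * Real.log (Ideal.absNorm v.asIdeal : ℝ)

/-- the Faltings height of `W` over `L` (not the stable one), times `[L : ℚ]`, with the same
normalisation as `stableHeight` -/
noncomputable def unstableHeight (W : WeierstrassCurve L)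
    (τ : InfinitePlace L → UpperHalfPlane) : ℝ :=
  (logDisc W + ∑ w : InfinitePlace L, (w.mult : ℝ) * arch (τ w)) / 12

/-- the product of the norms of the primes of multiplicative reduction not dividing six -/
noncomputable def multNorm (W : WeierstrassCurve L) : ℝ :=
  ∏ᶠ v ∈ {v : HeightOneSpectrum (𝓞 L) |
    ¬ GoodAt v W ∧ SemistableAt v W ∧ v.valuation L 6 = 1}, (Ideal.absNorm v.asIdeal : ℝ)

/-- the product of the squares of the norms of the primes of additive reduction not dividing six.
So the part of the conductor of `W` prime to six has norm `multNorm W * addNorm W`, and the product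
`N` of the norms of the primes of bad reduction prime to six has
`log N = log (multNorm W) + log (addNorm W) / 2`. -/
noncomputable def addNorm (W : WeierstrassCurve L) : ℝ :=
  ∏ᶠ v ∈ {v : HeightOneSpectrum (𝓞 L) | ¬ SemistableAt v W ∧ v.valuation L 6 = 1},
    (Ideal.absNorm v.asIdeal : ℝ) ^ 2

end

section

variable {K : Type} [Field K]

/-- `A / B` is a non-constant rational function in lowest terms -/
structure IsFunction (A B : K[X]) : Prop where
  coprime : IsCoprime A B
  den_ne : B ≠ 0
  nonconst : 1 ≤ max A.natDegree B.natDegree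

/-- `P` is a bad place of the families with invariant `J = A / B`: a pole of `J`, a zero of `J` of
order not divisible by three, or a zero of `J - 1728` of odd order -/
def IsBadPlace (A B P : K[X]) : Prop :=
  P.Monic ∧ Irreducible P ∧
    (P ∣ B ∨ ¬ 3 ∣ multiplicity P A ∨ ¬ 2 ∣ multiplicity P (A - 1728 * B))

variable [NumberField K]

/-- `p` is the minimal polynomial over `K` of a number of degree `r` over `K` and of height at most
`U` (Mathlib's height of `x` as an element of `L`, that is `[L : ℚ]` times the absolute height) -/
def HasHeightLE (r : ℕ) (U : ℝ) (p : K[X]) : Prop :=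
  ∃ (L : Type) (_ : Field L) (_ : NumberField L) (_ : Algebra K L) (x : L),
    Module.finrank K L = r ∧ (minpoly K x).natDegree = r ∧ minpoly K x = p ∧
      Height.logHeight₁ x ≤ U

end

/-- Frey's inequality with slope `1 / 2`, the saving `(1 - κ) h` and the constant `C`, for all
elliptic curves over `L` of invariant `j`: for the stable height and the product of the bad primes,
and for the unstable height and the conductor -/
def Holds {L : Type} [Field L] [NumberField L] (κ C h : ℝ) (j : L) : Prop :=
  ∀ (W : WeierstrassCurve L) (τ : InfinitePlace L → UpperHalfPlane), W.Δ ≠ 0 →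
    W.c₄ ^ 3 / W.Δ = j → IsPeriod j τ →
    stableHeight j τ ≤ 1 / 2 * (Real.log (multNorm W) + Real.log (addNorm W) / 2) -
      (1 - κ) * h + C ∧
    unstableHeight W τ ≤ 1 / 2 * Real.log (multNorm W * addNorm W) - (1 - κ) * h + C

open Pool.Agent.V7H38.FR Pool.Agent.N751.FR in
theorem badPl_iff {K : Type} [Field K] [CharZero K] {A B : K[X]} (h : Fam A B) (P : K[X])
    (hP : P ∈ badPl A B) : IsBadPlace A B P := by
  have h1 := (mem_badPl h P).1 hP
  exact ⟨h1.1.2.1, h1.1.1, h1.2⟩

/-- **Theorem.** For every number field `K` and `r ≥ 1` there is one exceptional set `E` of minimal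
polynomials of numbers of degree `r`, of which at most `2 exp ((r + 1) U - √U)` belong to numbers of
height at most `U`, whereas there are at least `c exp ((r + 1) U)` of these, such that for every
rational function `J = A / B` whose bad places have degree at most `2 r + 1` and every `κ > 0`
Frey's inequality `Holds` with one constant `C` for all elliptic curves `W` of invariant
`J(x)` over `L`, for all extensions `L / K` of degree `r` and all `x` with `L = K(x)` and minimal
polynomial outside `E`. -/
theorem result (K : Type) [Field K] [NumberField K] (r : ℕ) (hr : 1 ≤ r) : ∃ E : Set K[X],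
    (∀ U : ℝ, 0 ≤ U → {p | p ∈ E ∧ HasHeightLE r U p}.Finite ∧
      ({p | p ∈ E ∧ HasHeightLE r U p}.ncard : ℝ) ≤ 2 * Real.exp ((r + 1) * U - √U)) ∧
    (∃ c U₀ : ℝ, 0 < c ∧ ∀ U : ℝ, U₀ ≤ U → ∃ T : Finset K[X], (∀ p ∈ T, HasHeightLE r U p) ∧
      c * Real.exp ((r + 1) * U) ≤ T.card) ∧
    ∀ A B : K[X], IsFunction A B → (∀ P, IsBadPlace A B P → P.natDegree ≤ 2 * r + 1) →
      ∀ κ : ℝ, 0 < κ → ∃ C : ℝ, ∀ (L : Type) [Field L] [NumberField L] [Algebra K L] (x : L),
        Module.finrank K L = r → (minpoly K x).natDegree = r → minpoly K x ∉ E →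
        aeval x B ≠ 0 → Holds κ C (Height.logHeight₁ x) (aeval x A / aeval x B) := by
  obtain ⟨_, _, hfin⟩ := Pool.Agent.V7H38.FR.final Pool.Agent.V7H38.FR.ke
  obtain ⟨E, hcount, hmain⟩ := hfin K r hr
  refine ⟨E, hcount, Pool.Agent.N31.FR.t K r hr, ?_⟩
  intro A B hAB hdeg κ hκ
  have hF : Pool.Agent.V7H38.FR.Fam A B := ⟨hAB.coprime, hAB.den_ne, hAB.nonconst⟩
  obtain ⟨C, hC0, hC⟩ := hmain A B hF (fun P hP => hdeg P (badPl_iff hF P hP)) (12 * κ)
    (by positivity)
  refine ⟨C, ?_⟩
  intro L _ _ _ x h1 h2 h3 h4 W τ hW hj hτ
  have hτ' : Pool.Agent.TH876.FH.IsPeriod (W.c₄ ^ 3 / W.Δ) τ := by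
    rw [hj]
    exact hτ
  obtain ⟨_, g2, g3⟩ := hC L x W τ h1 h2 h3 hW h4 hj hτ'
  have hm : 0 < multNorm W := Pool.Agent.Y733.FF.multN_pos W hW
  have ha : 0 < addNorm W := Pool.Agent.Y733.FF.addN_pos W hW
  have e1 : Pool.Agent.Y733.FF.discSum W = logDisc W := rfl
  have e2 : Pool.Agent.Y733.FF.multN W = multNorm W := rfl
  have e3 : Pool.Agent.Y733.FF.addN W = addNorm W := rfl
  have e4 : ∑ w : InfinitePlace L, (w.mult : ℝ) * Pool.Agent.TH876.FH.arch (τ w) =
    ∑ w : InfinitePlace L, (w.mult : ℝ) * arch (τ w) := rfl
  have e5 : Pool.Agent.V7H38.FR.Jf (W.c₄ ^ 3 / W.Δ) = ∑ᶠ v : HeightOneSpectrum (𝓞 L),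
    Real.log (max (FinitePlace.mk v (W.c₄ ^ 3 / W.Δ)) 1) := rfl
  rw [e1, e2, e3, e4] at g2
  rw [e2, e3, e4, e5, hj] at g3
  have e6 : Real.log (multNorm W * addNorm W) = Real.log (multNorm W) + Real.log (addNorm W) :=
    Real.log_mul hm.ne' ha.ne'
  refine ⟨?_, ?_⟩
  · unfold stableHeight
    linarith
  · unfold unstableHeight
    rw [e6]
    linarith

end Pool.Agent.Results.MP_c59389_nt.AllExtensionsH38
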