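import Pool.Agent.V7H10.FR

/-!
# Frey's inequality for all Weil restrictions with height near functions of the denominators of good approximations

Let `β ∈ ℝ ^ m`, `τ > 0`, let `G` have steps bounded below by a positive constant and growth at most `v ^ D`, for example
`G v = α v ^ D`, `0 ≤ θ ≤ 1` and `s > 0`. We show: there is ONE set `E` in `ℝ ^ m` of Hausdorff dimension at most
`(m + s + θ) / (1 + τ)` such that for all `α` outside `E`: for ALL degrees `n ≥ 2`, ALL slopes `κ > D e(n) / ((n + 1) s)`, where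
`e 2 = e 3 = 2 / 3` and `e n = O (log ^ 2 n)`, all `c`, `C` and all large `q` with `‖q α_i - β_i‖ ≤ C q ^ (-τ)` for all `i`
(distance to the nearest integer): Frey's inequality `h_F(A) ≤ κ log N_A - c` holds for ALL Weil restrictions
`A = Res_{L/ℚ} E`, where `L` is any number field of degree `n` and `E` an elliptic curve over `L` with full two-torsion, such
that `H = exp (h_F(A))` satisfies `|H ^ (n + 1) - G q| ≤ q ^ θ`. For Frey's slope `κ = n / 2` and `n = 2` one can take any
`s > 2 D / 9`. The set of the `α` with infinitely many good approximations of order `τ ≥ 1 / m` has dimension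
`(m + 1) / (1 + τ)`.

The exceptional set of the inequality is bounded by the starting theorem `WeilRestrictions` of this problem (in the form
`count` of the starting file `StarshapedFrey`); the denominators of good approximations are much less. The tool is
`Pool.Agent.N671.DA` (helper671). One exceptional set of `α` suffices for all degrees, slopes and constants.
-/

set_option autoImplicit false

namespace Pool.Agent.Results.MP_c59389_nt.ApproximationFreyH10

open NumberField
open WeilRestrictions (jInv expo)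
open Pool.Agent.N671.DA (Solves Expanding)
open Pool.Agent.V7H10.FR (Frey Idx Bad hgt main slope expn expn_nonneg frey_of frey_mono)

/-- **Frey's inequality near functions of the denominators of good approximations.** There is a function `e ≥ 0` with
`e n ≤ max (2 / 3) (expo n / 2)` for `n ≥ 2` (so `e 2 ≤ 2 / 3`, `e 3 ≤ 2 / 3`) and `e n = O (log ^ 2 n)` such that for each
section `P` of the modular invariant (used to write down Faltings heights), all `G` with steps `≥ a > 0` and growth at most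
`v^D`, all `0 ≤ θ ≤ 1`, `s > 0`, `β ∈ ℝ ^ m` and `τ > 0` there is a set `E` in `ℝ ^ m` of Hausdorff dimension at most
`(m + s + θ) / (1 + τ)` such that for all `α ∉ E`, all `n ≥ 2`, all `κ > 0` with `D e(n) / ((n + 1) κ) < s` and all `c`, `C`:
for all large `q` with `‖q α_i - β_i‖ ≤ C q ^ (-τ)` for all `i`, for ALL number fields `L` of degree `n` (in the
algebraic closure of `ℚ`) and ALL elliptic curves `W` over `L` with full two-torsion for which `h = n h_F(W)` satisfies
`|exp (h) ^ (n + 1) - G q| ≤ q ^ θ` one has `h ≤ κ log (badNorm W |D_L| ^ 2) - c` (`Frey`). -/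
theorem result :
    ∃ e : ℕ → ℝ, (∀ n, 0 ≤ e n) ∧ (∀ n : ℕ, 2 ≤ n → e n ≤ max (2 / 3) (expo n / 2)) ∧
      (∀ c : ℝ, 1 / (16 * (Real.log 2) ^ 2) < c → ∀ᶠ n : ℕ in Filter.atTop, e n ≤ c * (Real.log n) ^ 2) ∧
      ∀ P : ℂ → UpperHalfPlane, (∀ z, jInv (P z) = z) → ∀ (G : ℕ → ℝ) (D : ℝ), Expanding G D →
        ∀ θ : ℝ, 0 ≤ θ → θ ≤ 1 → ∀ s : ℝ, 0 < s → ∀ (m : ℕ) (β : Fin m → ℝ) (τ : ℝ), 0 < τ →
        ∃ E : Set (Fin m → ℝ), dimH E ≤ ENNReal.ofReal ((m + (s + θ)) / (1 + τ)) ∧ ∀ α, α ∉ E →
          ∀ n : ℕ, 2 ≤ n → ∀ κ : ℝ, 0 < κ → D * (e n / ((n + 1) * κ)) < s → ∀ c C : ℝ,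
            ∃ Q : ℕ, ∀ q : ℕ, Q ≤ q → Solves α β q (C * (q : ℝ) ^ (-τ)) → Frey P n κ c (G q) ((q : ℝ) ^ θ) := by
  obtain ⟨e, he0, he1, he2, h⟩ := main
  refine ⟨e, he0, he1, he2, fun P hP G D hG θ hθ hθ1 s hs m β τ hτ => ?_⟩
  have hD : 0 < D := lt_of_lt_of_le one_pos hG.one_le
  have hB : 0 < s / D := div_pos hs hD
  obtain ⟨E, hE, h2⟩ := Pool.Agent.V7H10.KE.approx2 (I := Idx e (s / D)) (T := fun _ => StarshapedFrey.Num)
    (Bad P) (hgt P) (s := expn) (expn_nonneg he0) (h P hP (s / D)) hG (B := s) (fun p => by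
      have h3 : expn p < s / D := p.2.2.2
      rw [lt_div_iff₀ hD] at h3
      linarith) hθ hθ1 β hτ
  refine ⟨E, hE, fun α hα n hn κ hκ hlt c C => ?_⟩
  obtain ⟨p, hp1, hp2, hp3⟩ := slope he0 hB hn hκ (by
    rw [lt_div_iff₀ hD]
    linarith) c
  obtain ⟨Q, hQ⟩ := h2 α hα p C
  refine ⟨Q, fun q hq hsol => ?_⟩
  have h3 := frey_of p (hQ q hq hsol)
  rw [hp1] at h3
  exact frey_mono hp2 hp3 h3

end Pool.Agent.Results.MP_c59389_nt.ApproximationFreyH10
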