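import Mathlib
import Pool.Agent.V7H9.FR.Fin

/-!
# The exact law of `h_F(E) - (1/6) log N_E` for the curves with full rational two-torsion

Frey's inequality for elliptic curves over `ℚ` says that `h_F(E) ≤ (1/2 + ε) log N_E + c`. We consider
the elliptic curves `E` over `ℚ` with full rational two-torsion, ordered by the product of the bad
primes (a divisor of the conductor, and equal to the conductor when `E` is semistable), with no
restriction on their heights. The number of their invariants, the number of the conductors of the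
semistable ones, and the distribution of `h_F(E) - (1/6) log N_E` are found exactly, with explicit
constants and with a power saving error term; the number of the curves which violate the inequality
`h_F(E) < κ log N_E + c` is asymptotic to an explicit integral for all slopes `κ > 1/6` close to `1/6`.

Proof: the curves correspond to the coprime triples `a + b = c`; the exact set of the bad primes and
the denominator of the invariant are found in terms of the exponent of `2` in `abc`, and the law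
follows from the effective joint law of `rad (abc)`, of `abc / rad (abc)` and of `a / c`
(`Pool.Agent.V7H9.AL`) and from the monotonicity of `j(i y)` and of the archimedean term.
-/

set_option autoImplicit false

namespace Pool.Agent.Results.MP_c59389_nt.ExactLawH9

open Filter Topology

/-- the modular invariant `j(τ) = E₄(τ) ^ 3 / Δ(τ) = 1 / q + 744 + ⋯` -/
noncomputable def jInv (τ : UpperHalfPlane) : ℂ :=
  ModularForm.E₄ τ ^ 3 / ModularForm.discriminant τ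

/-- the archimedean term `- log (|Δ(τ)| (Im τ) ^ 6)` of the Faltings height -/
noncomputable def arch (τ : UpperHalfPlane) : ℝ :=
  -Real.log (‖ModularForm.discriminant τ‖ * τ.im ^ 6)

/-- `τ = i y` with `y ≥ 1` has the modular invariant `j` -/
def IsPeriod (j : ℚ) (τ : UpperHalfPlane) : Prop :=
  τ.re = 0 ∧ 1 ≤ τ.im ∧ jInv τ = ((j : ℚ) : ℂ)

/-- Silverman's formula for the stable Faltings height (up to an additive constant) of an elliptic
curve over `ℚ` with modular invariant `j`, where `τ` is a period: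
`12 h_F = ∑_p log max(|j|_p, 1) + arch τ`; the sum is the logarithm of the denominator of `j` -/
noncomputable def height (j : ℚ) (τ : UpperHalfPlane) : ℝ :=
  (Real.log (j.den : ℝ) + arch τ) / 12

/-- full rational two-torsion: the polynomial of the first coordinates of the points of order two
has three roots -/
def FullTwo (E : WeierstrassCurve ℚ) : Prop :=
  ∃ e : Fin 3 → ℚ, Function.Injective e ∧
    ∀ i, 4 * e i ^ 3 + E.b₂ * e i ^ 2 + 2 * E.b₄ * e i + E.b₆ = 0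

/-- the Weierstrass equation `V` is integral at `p` -/
def IntegralAt (p : ℕ) (V : WeierstrassCurve ℚ) : Prop :=
  padicNorm p V.a₁ ≤ 1 ∧ padicNorm p V.a₂ ≤ 1 ∧ padicNorm p V.a₃ ≤ 1 ∧
    padicNorm p V.a₄ ≤ 1 ∧ padicNorm p V.a₆ ≤ 1

/-- good reduction: some equation of the curve is integral at `p` with discriminant a unit at `p` -/
def GoodAt (p : ℕ) (E : WeierstrassCurve ℚ) : Prop :=
  ∃ C : WeierstrassCurve.VariableChange ℚ, IntegralAt p (C • E) ∧ padicNorm p (C • E).Δ = 1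

/-- semistable reduction: some equation is integral at `p` with `Δ` or `c₄` a unit at `p` -/
def SemistableAt (p : ℕ) (E : WeierstrassCurve ℚ) : Prop :=
  ∃ C : WeierstrassCurve.VariableChange ℚ, IntegralAt p (C • E) ∧
    (padicNorm p (C • E).Δ = 1 ∨ padicNorm p (C • E).c₄ = 1)

/-- the elliptic curves with full rational two-torsion (`s = false`), and the semistable ones among
them (`s = true`) -/
def Curve (s : Bool) (E : WeierstrassCurve ℚ) : Prop :=
  E.Δ ≠ 0 ∧ FullTwo E ∧ (s = true → ∀ p : ℕ, p.Prime → SemistableAt p E)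

/-- the product `N` of the primes of bad reduction; it is the conductor if `E` is semistable, and it
divides the conductor in general -/
noncomputable def N (E : WeierstrassCurve ℚ) : ℕ := ∏ᶠ p ∈ {p : ℕ | p.Prime ∧ ¬ GoodAt p E}, p

/-- the modular invariants of the curves with `N ≤ X` (of any height) -/
def Invariants (s : Bool) (X : ℝ) : Set ℚ :=
  {j | ∃ E : WeierstrassCurve ℚ, Curve s E ∧ E.c₄ ^ 3 / E.Δ = j ∧ (N E : ℝ) ≤ X}

/-- the modular invariants of the curves with `N ≤ X` and `h_F ≥ (1/6) log N + φ(N)` -/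
def Above (s : Bool) (φ : ℝ → ℝ) (X : ℝ) : Set ℚ :=
  {j | ∃ (E : WeierstrassCurve ℚ) (τ : UpperHalfPlane), Curve s E ∧ E.c₄ ^ 3 / E.Δ = j ∧
    (N E : ℝ) ≤ X ∧ IsPeriod j τ ∧ 1 / 6 * Real.log (N E : ℝ) + φ (N E : ℝ) ≤ height j τ}

/-- the violators: the modular invariants of the curves with `N ≤ X` and `h_F ≥ κ log N + c` -/
def Violators (s : Bool) (κ c X : ℝ) : Set ℚ :=
  {j | ∃ (E : WeierstrassCurve ℚ) (τ : UpperHalfPlane), Curve s E ∧ E.c₄ ^ 3 / E.Δ = j ∧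
    (N E : ℝ) ≤ X ∧ IsPeriod j τ ∧ κ * Real.log (N E : ℝ) + c ≤ height j τ}

/-- the conductors `≤ X` of the semistable curves -/
def Conductors (X : ℝ) : Set ℕ :=
  {n | (n : ℝ) ≤ X ∧ ∃ E : WeierstrassCurve ℚ, Curve true E ∧ N E = n}

/-- the conductors `≤ X` of the semistable curves with `h_F ≥ (1/6) log N + φ(N)` -/
def ConductorsAbove (φ : ℝ → ℝ) (X : ℝ) : Set ℕ :=
  {n | (n : ℝ) ≤ X ∧ ∃ (E : WeierstrassCurve ℚ) (τ : UpperHalfPlane), Curve true E ∧ N E = n ∧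
    IsPeriod (E.c₄ ^ 3 / E.Δ) τ ∧
    1 / 6 * Real.log (N E : ℝ) + φ (N E : ℝ) ≤ height (E.c₄ ^ 3 / E.Δ) τ}

/-- the product over the primes of `1 - 4 / q ^ 2 + 3 / q ^ 3` -/
noncomputable def dens : ℝ :=
  ∏' q : Nat.Primes, (1 - 4 / ((q : ℕ) : ℝ) ^ 2 + 3 / ((q : ℕ) : ℝ) ^ 3)

/-- the weight `w ^ (-1/3) ∏ 3 (q - 1) / (q ^ 2 + q - 3)` (over the primes `q ∣ w`) of `w` -/
noncomputable def weight (w : ℕ) : ℝ :=
  (w : ℝ) ^ (-(1 / 3) : ℝ) * ∏ q ∈ w.primeFactors, 3 * ((q : ℝ) - 1) / ((q : ℝ) ^ 2 + q - 3)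

/-- the factor of `w` at `2`: `2 ^ (2/3)` if `8` exactly divides `w`; otherwise `1`, but `0` for the
semistable curves if `8` does not divide `w` -/
noncomputable def share (s : Bool) (w : ℕ) : ℝ :=
  if w.factorization 2 = 3 then 2 ^ ((2 : ℝ) / 3)
  else if s = true ∧ w.factorization 2 < 3 then 0 else 1

/-- the arithmetic part: `12 (h_F - (1/6) log N) = 2 log (m w) + arch` -/
noncomputable def m (w : ℕ) : ℝ :=
  (w : ℝ) * (if w.factorization 2 = 3 then 2 else 1) / 2 ^ min 4 (w.factorization 2 + 1)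

/-- the mass of the `t` with `arch ≥ x` at the curve `y² = x (x - 1) (x - t)`, `0 < t ≤ 1/2`, for
the density `(1/2) (t (1 - t)) ^ (-2/3)` -/
noncomputable def mass (x : ℝ) : ℝ :=
  1 / 2 * ∫ t in {t : ℝ | 0 < t ∧ t ≤ 1 / 2 ∧ ∃ τ : UpperHalfPlane, τ.re = 0 ∧ 1 ≤ τ.im ∧
    jInv τ = ((256 * (1 - t + t ^ 2) ^ 3 / (t * (1 - t)) ^ 2 : ℝ) : ℂ) ∧ x ≤ arch τ},
    (t * (1 - t)) ^ (-(2 / 3) : ℝ)

/-- the limit law of `h_F - (1/6) log N` -/
noncomputable def G (s : Bool) (z : ℝ) : ℝ :=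
  ∑' w : ℕ, dens * weight w * (share s w * mass (12 * z - 2 * Real.log (m w)))

/-- the factor at `2` of the constant -/
noncomputable def factor (s : Bool) : ℝ :=
  if s = true then 2 ^ (-(1 / 3) : ℝ) * (1 - 2 ^ (-(1 / 3) : ℝ)) + (2 : ℝ) ^ (-(4 / 3) : ℝ)
  else 1 + (2 ^ ((2 : ℝ) / 3) - 1) * (1 - 2 ^ (-(1 / 3) : ℝ)) / 2

/-- the constant -/
noncomputable def K (s : Bool) : ℝ := Real.Gamma (1 / 3) ^ 2 / (4 * Real.Gamma (2 / 3)) *
  (∏' q : Nat.Primes, (1 - 4 / ((q : ℕ) : ℝ) ^ 2 + 3 / ((q : ℕ) : ℝ) ^ 3 +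
    3 * (((q : ℕ) : ℝ) - 1) ^ 2 / (((q : ℕ) : ℝ) ^ 3 * (((q : ℕ) : ℝ) ^ ((1 : ℝ) / 3) - 1)))) *
  factor s

/-- the integral of `G (φ (u ^ (3/2)))` over `1 ≤ u ≤ X ^ (2/3)` -/
noncomputable def mainTerm (s : Bool) (φ : ℝ → ℝ) (X : ℝ) : ℝ :=
  ∫ u in (1 : ℝ)..(X ^ ((2 : ℝ) / 3)), G s (φ (u ^ ((3 : ℝ) / 2)))

lemma G_eq (s : Bool) (z : ℝ) : G s z = Pool.Agent.V7H9.FR.Gs s z := by
  unfold G Pool.Agent.V7H9.FR.Gs
  refine tsum_congr fun w => ?_
  have h : mass (12 * z - 2 * Real.log (m w)) =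
      Pool.Agent.V7H9.AL.Hf (Pool.Agent.V7H9.FR.thw z w) :=
    Pool.Agent.V7H9.FR.mass_eq _
  rw [h]
  rfl

lemma main_eq (s : Bool) (φ : ℝ → ℝ) (X : ℝ) : mainTerm s φ X = Pool.Agent.V7H9.FR.Mt s φ X := by
  unfold mainTerm Pool.Agent.V7H9.FR.Mt
  simp only [G_eq]

lemma K_eq (s : Bool) : K s = Pool.Agent.V7H9.FR.ks s := (Pool.Agent.V7H9.FR.ks_eq s).symm

lemma inv_eq (s : Bool) (X : ℝ) : Invariants s X = Pool.Agent.V7H9.FR.Inv s X := by
  ext j
  constructor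
  · rintro ⟨E, ⟨h1, h2, h3⟩, h4, h5⟩
    exact ⟨E, h1, h2, h3, h4, h5⟩
  · rintro ⟨E, h1, h2, h3, h4, h5⟩
    exact ⟨E, ⟨h1, h2, h3⟩, h4, h5⟩

lemma above_eq (s : Bool) (φ : ℝ → ℝ) (X : ℝ) : Above s φ X = Pool.Agent.V7H9.FR.Vio s φ X := by
  ext j
  constructor
  · rintro ⟨E, τ, ⟨h1, h2, h3⟩, h4, h5, h6, h7⟩
    exact ⟨E, τ, h1, h2, h3, h4, h5, h6, h7⟩
  · rintro ⟨E, τ, h1, h2, h3, h4, h5, h6, h7⟩
    exact ⟨E, τ, ⟨h1, h2, h3⟩, h4, h5, h6, h7⟩

lemma cond_eq (X : ℝ) : Conductors X = Pool.Agent.V7H9.FR.Cnd X := by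
  ext n
  constructor
  · rintro ⟨h0, E, ⟨h1, h2, h3⟩, h4⟩
    exact ⟨h0, E, h1, h2, h3 rfl, h4⟩
  · rintro ⟨h0, E, h1, h2, h3, h4⟩
    exact ⟨h0, E, ⟨h1, h2, fun _ => h3⟩, h4⟩

lemma condA_eq (φ : ℝ → ℝ) (X : ℝ) : ConductorsAbove φ X = Pool.Agent.V7H9.FR.CndV φ X := by
  ext n
  constructor
  · rintro ⟨h0, E, τ, ⟨h1, h2, h3⟩, h4, h5, h6⟩
    exact ⟨h0, E, τ, h1, h2, h3 rfl, h4, h5, h6⟩
  · rintro ⟨h0, E, τ, h1, h2, h3, h4, h5, h6⟩
    exact ⟨h0, E, τ, ⟨h1, h2, fun _ => h3⟩, h4, h5, h6⟩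

lemma vio_eq (s : Bool) (κ c X : ℝ) :
    Violators s κ c X = Above s (fun t => (κ - 1 / 6) * Real.log t + c) X := by
  ext j
  constructor
  · rintro ⟨E, τ, h1, h2, h3, h4, h5⟩
    refine ⟨E, τ, h1, h2, h3, h4, le_trans (le_of_eq ?_) h5⟩
    ring
  · rintro ⟨E, τ, h1, h2, h3, h4, h5⟩
    refine ⟨E, τ, h1, h2, h3, h4, le_trans (le_of_eq ?_) h5⟩
    beta_reduce
    ring

/-- **The exact law of the Faltings height for full two-torsion.** Every curve considered has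
finitely many bad primes and exactly one period `i y`, `y ≥ 1`. There are `C, ν > 0` such that
(1) for all `X ≥ 1` the numbers of the invariants of the curves with `N ≤ X` (all curves and the
semistable curves) and the number of the conductors `≤ X` of the semistable curves differ from
`K X ^ (2/3)` by at most `C X ^ (2/3 - 2 ν)`, with the explicit constants `K > 0`;
(2) for all `X ≥ 1` and ALL nondecreasing `φ` on `[1, ∞)` the number of the invariants of the curves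
with `N ≤ X` and `h_F ≥ (1/6) log N + φ(N)`, and the number of the conductors of such semistable
curves, differ from `∫ G (φ (u ^ (3/2))) du` over `1 ≤ u ≤ X ^ (2/3)` by at most
`C X ^ (2/3 - 2 ν)`; for constant `φ = z` this is the limit law `G(z)` of `h_F - (1/6) log N`;
(3) for `1/6 < κ < 1/6 + ν` and all `c` the number of the violators, `h_F ≥ κ log N + c`, is
asymptotic to the explicit integral.
(4) For `1/6 ≤ κ ≤ 1/3` this integral lies between `b X ^ (1 - 2 κ - ε)` and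
`B X ^ (1 - 2 κ + ε)`.
(5) `G` is nonincreasing with `0 < G ≤ K`, `G = K` on a half-line, and
`b e ^ (- (2 + ε) z) ≤ G(z) ≤ B e ^ (- (2 - ε) z)` for `z ≥ 0`. -/
theorem result :
    (∀ E : WeierstrassCurve ℚ, Curve false E →
      ({p : ℕ | p.Prime ∧ ¬ GoodAt p E} : Set ℕ).Finite ∧ ∃! τ, IsPeriod (E.c₄ ^ 3 / E.Δ) τ) ∧
    (∃ C ν : ℝ, 0 < C ∧ 0 < ν ∧
      (∀ X : ℝ, 1 ≤ X →
        (∀ s : Bool, (Invariants s X).Finite ∧
          |((Invariants s X).ncard : ℝ) - K s * X ^ ((2 : ℝ) / 3)| ≤ C * X ^ (2 / 3 - 2 * ν)) ∧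
        |((Conductors X).ncard : ℝ) - K true * X ^ ((2 : ℝ) / 3)| ≤ C * X ^ (2 / 3 - 2 * ν)) ∧
      (∀ X : ℝ, 1 ≤ X → ∀ φ : ℝ → ℝ, MonotoneOn φ (Set.Ici 1) →
        (∀ s : Bool,
          |((Above s φ X).ncard : ℝ) - mainTerm s φ X| ≤ C * X ^ (2 / 3 - 2 * ν)) ∧
        |((ConductorsAbove φ X).ncard : ℝ) - mainTerm true φ X| ≤ C * X ^ (2 / 3 - 2 * ν)) ∧
      (∀ (s : Bool) (κ c : ℝ), 1 / 6 < κ → κ < 1 / 6 + ν →
        Tendsto (fun X : ℝ => ((Violators s κ c X).ncard : ℝ) /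
          mainTerm s (fun t => (κ - 1 / 6) * Real.log t + c) X) atTop (𝓝 1))) ∧
    (∀ (s : Bool) (κ c ε : ℝ), 1 / 6 ≤ κ → κ ≤ 1 / 3 → 0 < ε → ∃ b B : ℝ, 0 < b ∧ 0 < B ∧
      ∀ X : ℝ, 2 ≤ X →
        b * X ^ (1 - 2 * κ - ε) ≤ mainTerm s (fun t => (κ - 1 / 6) * Real.log t + c) X ∧
        mainTerm s (fun t => (κ - 1 / 6) * Real.log t + c) X ≤ B * X ^ (1 - 2 * κ + ε)) ∧
    (∀ s : Bool, 0 < K s ∧ Antitone (G s) ∧ (∀ z, 0 < G s z ∧ G s z ≤ K s) ∧
      (∃ z₀ : ℝ, ∀ z : ℝ, z ≤ z₀ → G s z = K s) ∧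
      ∀ ε : ℝ, 0 < ε → ∃ b B : ℝ, 0 < b ∧ 0 < B ∧ ∀ z : ℝ, 0 ≤ z →
        b * Real.exp (-((2 + ε) * z)) ≤ G s z ∧ G s z ≤ B * Real.exp (-((2 - ε) * z))) := by
  refine ⟨fun E hE => ⟨Pool.Agent.V7H9.FR.bad_finite hE.1, ?_⟩, ?_, ?_, ?_⟩
  · obtain ⟨p, hp, hj⟩ := Pool.Agent.V7H9.FR.ex_tri hE.1 hE.2.1
    rw [hj]
    exact Pool.Agent.V7H9.FR.per_ex hp
  · obtain ⟨C, ν, hC, hν, hν1, h⟩ := Pool.Agent.V7H9.FR.all_eff
    refine ⟨C, ν, hC, hν, fun X hX => ⟨fun s => ⟨?_, ?_⟩, ?_⟩, fun X hX φ hφ => ⟨fun s => ?_, ?_⟩,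
      fun s κ c hκ hκν => ?_⟩
    · rw [inv_eq, Pool.Agent.V7H9.FR.Inv_eq]
      exact (Pool.Agent.V7H9.FR.fam_finite s X).image _
    · rw [inv_eq, K_eq]
      exact (h X hX).1 s
    · rw [cond_eq, K_eq]
      exact (h X hX).2.1
    · rw [above_eq, main_eq]
      exact ((h X hX).2.2 φ hφ).1 s
    · rw [condA_eq, main_eq]
      exact ((h X hX).2.2 φ hφ).2
    · have h1 := Pool.Agent.V7H9.FR.ratio s (C := C) (ν := ν) (δ := κ - 1 / 6) (by linarith)
        (by linarith) c (f := fun X => ((Violators s κ c X).ncard : ℝ)) fun X hX => by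
          rw [vio_eq, above_eq]
          exact ((h X hX).2.2 _ (Pool.Agent.V7H9.FR.slo_mono (by linarith) c)).1 s
      refine h1.congr fun X => ?_
      rw [main_eq]
      rfl
  · intro s κ c ε hκ hκ2 hε
    obtain ⟨b, hb, h1⟩ := Pool.Agent.V7H9.FR.Mt_low s hε (δ := κ - 1 / 6) (by linarith) c
    obtain ⟨B, hB, h2⟩ := Pool.Agent.V7H9.FR.Mt_up s (ε := min ε 1) (lt_min hε one_pos)
      (min_le_right _ _) (δ := κ - 1 / 6) (by linarith) (by linarith) c
    refine ⟨b, B, hb, hB, fun X hX => ⟨?_, ?_⟩⟩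
    · rw [main_eq]
      refine le_trans ?_ (h1 X hX)
      refine mul_le_mul_of_nonneg_left ?_ hb.le
      refine Real.rpow_le_rpow_of_exponent_le (by linarith) ?_
      nlinarith
    · rw [main_eq]
      refine (h2 X (by linarith)).trans ?_
      refine mul_le_mul_of_nonneg_left ?_ hB.le
      refine Real.rpow_le_rpow_of_exponent_le (by linarith) ?_
      have h3 : min ε 1 ≤ ε := min_le_left _ _
      have h4 : 0 < min ε 1 := lt_min hε one_pos
      nlinarith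
  · intro s
    have hKs := K_eq s
    refine ⟨by rw [hKs]; exact Pool.Agent.V7H9.FR.ks_pos s, ?_, fun z => ⟨?_, ?_⟩, ?_, ?_⟩
    · intro z z' h
      rw [G_eq, G_eq]
      exact Pool.Agent.V7H9.FR.Gs_anti s h
    · rw [G_eq]
      obtain ⟨b, hb, h1⟩ := Pool.Agent.V7H9.FR.Gs_low s one_pos
      have h2 := h1 (max z 0) (le_max_right _ _)
      have h3 := Pool.Agent.V7H9.FR.Gs_anti s (le_max_left z 0)
      have h4 : 0 < b * Real.exp (-((2 + 1) * max z 0)) := by positivity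
      linarith
    · rw [G_eq, hKs]
      exact Pool.Agent.V7H9.FR.Gs_le s z
    · obtain ⟨z0, h⟩ := Pool.Agent.V7H9.FR.Gs_full
      refine ⟨z0, fun z hz => ?_⟩
      rw [G_eq, hKs]
      exact h s z hz
    · intro ε hε
      obtain ⟨b, hb, h1⟩ := Pool.Agent.V7H9.FR.Gs_low s hε
      obtain ⟨B, hB, h2⟩ := Pool.Agent.V7H9.FR.Gs_up s (ε := min (ε / 2) 1)
        (lt_min (by linarith) one_pos) (min_le_right _ _)
      refine ⟨b, B, hb, hB, fun z hz => ⟨?_, ?_⟩⟩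
      · rw [G_eq]
        exact h1 z hz
      · rw [G_eq]
        refine (h2 z).trans (mul_le_mul_of_nonneg_left (Real.exp_le_exp.2 ?_) hB.le)
        have h3 : min (ε / 2) 1 ≤ ε / 2 := min_le_left _ _
        nlinarith

end Pool.Agent.Results.MP_c59389_nt.ExactLawH9
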