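import Pool.Agent.V7H10.FR

/-!
# Frey's inequality for all Weil restrictions with height near the orbits of Euler's function

Let `f` be a positive multiplicative function of at most polynomial growth such that `f p ≤ M p` for the large primes `p`,
with different values at different large primes, for example the identity, Euler's function or the sum of the divisors, and
let `φ_j` be the `j`-th iterate of Euler's function. Let `G` have steps bounded below by a positive constant and growth at most
`v ^ D`, for example `G v = α v ^ D`, and `0 ≤ θ < 1`. We show: there are ONE set `M` of natural numbers of density one and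
`J(m)` tending to infinity such that for ALL degrees `n ≥ 2`, ALL slopes `κ > 0` with `D e(n) / ((n + 1) κ) + θ < 1`, where
`e 2 = e 3 = 2 / 3` and `e n = O (log ^ 2 n)`, and all `c`, for all large `m` in `M` and all `j ≤ J(m)`, with `v = f(φ_j(m))`:
Frey's inequality `h_F(A) ≤ κ log N_A - c` holds for ALL Weil restrictions `A = Res_{L/ℚ} E`, where `L` is any number field of
degree `n` and `E` an elliptic curve over `L` with full two-torsion, such that `H = exp (h_F(A))` satisfies
`|H ^ (n + 1) - G v| ≤ v ^ θ`. For Frey's slope `κ = n / 2` and `n = 2` the condition is `2 D / 9 + θ < 1`. The members of the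
orbits form an extremely thin set with very large multiplicities, and so this does not follow from the size of the
exceptional set.

Its size is bounded by the starting theorem `WeilRestrictions` of this problem (in the form `count` of the starting file
`StarshapedFrey`). The tool is `Pool.Agent.N760.IT` (helper760); a diagonal argument (`Pool.Agent.V7H10.Diag`) gives one set of
density one for all degrees, slopes and constants.
-/

set_option autoImplicit false

namespace Pool.Agent.Results.MP_c59389_nt.TotientOrbitFreyH10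

open NumberField
open WeilRestrictions (jInv expo)
open Pool.Agent.N733.TG (LM Expanding lm_totient lm_sigma expanding_pow)
open Pool.Agent.N760.IT (orb lm_id)
open Pool.Agent.N826.IT.Orb (AlmostAll)
open Pool.Agent.V7H10.FR (Frey Idx Bad hgt main slope expn expn_nonneg frey_of frey_mono)

/-- **Frey's inequality near the orbits of Euler's function.** There is a function `e ≥ 0` with
`e n ≤ max (2 / 3) (expo n / 2)` for `n ≥ 2` (so `e 2 ≤ 2 / 3`, `e 3 ≤ 2 / 3`) and `e n = O (log ^ 2 n)` such that for each
section `P` of the modular invariant (used to write down Faltings heights), all `f` multiplicative and positive, of at most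
polynomial growth, with `f p ≤ M p` at the large primes and injective there, all `G` with steps `≥ a > 0` and growth at most
`v^D` and all `0 ≤ θ < 1` there are a set `M` of natural numbers of density one and `J(m)` tending to infinity such that for all
`n ≥ 2`, all `κ > 0` with `D e(n) / ((n + 1) κ) + θ < 1` and all `c`: for all large `m ∈ M` and all `j ≤ J(m)`, with
`v = orb f j m = f(φ_j(m))`, `φ_j` the `j`-th iterate of Euler's function, for ALL number fields `L` of degree `n` (in the
algebraic closure of `ℚ`) and ALL elliptic curves `W` over `L` with full two-torsion for which `h = n h_F(W)` satisfies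
`|exp (h) ^ (n + 1) - G v| ≤ v ^ θ` one has `h ≤ κ log (badNorm W |D_L| ^ 2) - c` (`Frey`). The identity, Euler's function and
the sum of the divisors are examples of such functions `f`, and `α v^D` with `α > 0`, `D ≥ 1` is an example of `G`. -/
theorem result :
    (∃ e : ℕ → ℝ, (∀ n, 0 ≤ e n) ∧ (∀ n : ℕ, 2 ≤ n → e n ≤ max (2 / 3) (expo n / 2)) ∧
      (∀ c : ℝ, 1 / (16 * (Real.log 2) ^ 2) < c → ∀ᶠ n : ℕ in Filter.atTop, e n ≤ c * (Real.log n) ^ 2) ∧
      ∀ P : ℂ → UpperHalfPlane, (∀ z, jInv (P z) = z) → ∀ f : ℕ → ℕ, LM f → ∀ (G : ℕ → ℝ) (D : ℝ), Expanding G D →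
        ∀ θ : ℝ, 0 ≤ θ → θ < 1 →
        ∃ (M : Set ℕ) (J : ℕ → ℕ), AlmostAll (fun m => m ∈ M) ∧ Filter.Tendsto J Filter.atTop Filter.atTop ∧
          ∀ n : ℕ, 2 ≤ n → ∀ κ : ℝ, 0 < κ → D * (e n / ((n + 1) * κ)) + θ < 1 → ∀ c : ℝ,
            ∃ m₀ : ℕ, ∀ m : ℕ, m₀ ≤ m → m ∈ M → ∀ j ≤ J m, Frey P n κ c (G (orb f j m)) ((orb f j m : ℝ) ^ θ)) ∧
    (LM (fun m => m) ∧ LM Nat.totient ∧ LM (fun m => ∑ d ∈ m.divisors, d)) ∧
    ∀ α D : ℝ, 0 < α → 1 ≤ D → Expanding (fun v => α * (v : ℝ) ^ D) D := by
  obtain ⟨e, he0, he1, he2, h⟩ := main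
  refine ⟨⟨e, he0, he1, he2, fun P hP f hf G D hG θ hθ hθ1 => ?_⟩, ⟨lm_id, lm_totient, lm_sigma⟩,
    fun α D hα hD => expanding_pow hα hD⟩
  have hD : 0 < D := lt_of_lt_of_le one_pos hG.one_le
  have hB : 0 < (1 - θ) / D := div_pos (by linarith) hD
  obtain ⟨M, J, hM, hJ, h2⟩ := Pool.Agent.V7H10.KE.orbit2 (I := Idx e ((1 - θ) / D)) (T := fun _ => StarshapedFrey.Num)
    (Bad P) (hgt P) (s := expn) (expn_nonneg he0) (h P hP ((1 - θ) / D)) hf hG hθ (fun p => by
      have h3 : expn p < (1 - θ) / D := p.2.2.2
      rw [lt_div_iff₀ hD] at h3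
      linarith)
  refine ⟨M, J, hM, hJ, fun n hn κ hκ hlt c => ?_⟩
  obtain ⟨p, hp1, hp2, hp3⟩ := slope he0 hB hn hκ (by
    rw [lt_div_iff₀ hD]
    linarith) c
  obtain ⟨m₀, hm₀⟩ := h2 p
  refine ⟨m₀, fun m hm hmM j hj => ?_⟩
  have h3 := frey_of p (hm₀ m hm hmM j hj)
  rw [hp1] at h3
  exact frey_mono hp2 hp3 h3

end Pool.Agent.Results.MP_c59389_nt.TotientOrbitFreyH10
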